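import Mathlib
import Pool.Agent.H361R2.PA.Sc

set_option autoImplicit false

/-! # Quadratic polynomials `a x² + n` with prescribed `a` whose first prime value comes late

Built on `Pool.Agent.H361R2.PA.scale_even` of the starting files (never handed in). -/

namespace Pool.Agent.Results.MP_a1177c_nt.LateFirstPrimeAnyLeading

open Pool.Agent.H361R2.PA

/-- `R X = log X (log₂ X)³ (log₄ X)² / (log₃ X)³` -/
noncomputable def R (X : ℝ) : ℝ :=
  Real.log X * Real.log (Real.log X) ^ 3 * Real.log (Real.log (Real.log (Real.log X))) ^ 2 /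
    Real.log (Real.log (Real.log X)) ^ 3

/-- Modulo every prime `p`, `f m` depends on `± m` only and vanishes when `p` divides `m`; for instance
`f m = g (m ^ 2)` with `g ∈ ℤ[x]`, `g(0) = 0`. -/
def EvenFun (f : ℕ → ℤ) : Prop :=
  (∀ p m : ℕ, p.Prime → p ∣ m → (p : ℤ) ∣ f m) ∧
    ∀ p m m' : ℕ, p.Prime → (p ∣ m + m' ∨ m % p = m' % p) → (p : ℤ) ∣ f m - f m'

/-- `(a, b, c)` is admissible in the sense of the problem -/
def Admissible (a b c : ℤ) : Prop :=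
  0 < a ∧ (∀ d : ℤ, d ∣ a → d ∣ b → d ∣ c → IsUnit d) ∧ ¬ IsSquare (b ^ 2 - 4 * a * c) ∧
    ¬ (Even (a + b) ∧ Even c)

theorem evenFun_quad (a : ℤ) : EvenFun (fun m => a * (m : ℤ) ^ 2) := by
  refine ⟨fun p m _ hpm => ?_, fun p m m' _ h => ?_⟩
  · have h1 : (p : ℤ) ∣ (m : ℤ) := by exact_mod_cast hpm
    exact Dvd.dvd.mul_left (dvd_pow h1 (by norm_num)) a
  · have e : a * (m : ℤ) ^ 2 - a * (m' : ℤ) ^ 2 = a * (((m : ℤ) + m') * ((m : ℤ) - m')) := by ring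
    show (p : ℤ) ∣ a * (m : ℤ) ^ 2 - a * (m' : ℤ) ^ 2
    rw [e]
    refine Dvd.dvd.mul_left ?_ a
    rcases h with h | h
    · have h1 : (p : ℤ) ∣ ((m : ℤ) + m') := by exact_mod_cast h
      exact Dvd.dvd.mul_right h1 _
    · have h1 : (p : ℤ) ∣ ((m : ℤ) - m') := by
        have := (Nat.modEq_iff_dvd.1 (show m' ≡ m [MOD p] from h.symm))
        exact this
      exact Dvd.dvd.mul_left h1 _

theorem R_le : ∃ X₀ : ℝ, ∀ X : ℝ, X₀ ≤ X → 1 ≤ Real.log X ∧ R X ≤ Real.log X ^ 2 := by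
  obtain ⟨X₀, h⟩ := num2 1
  refine ⟨X₀, fun X hX => ?_⟩
  obtain ⟨h0, h1, h2, h3, h4, h5, h6, h7⟩ := h X hX
  refine ⟨by linarith, ?_⟩
  set L1 := Real.log X
  set u2 := Real.log L1
  set u3 := Real.log u2
  set u4 := Real.log u3
  have hu3 : 0 < u3 := by linarith
  have hu3' : 2 ≤ u3 := by linarith
  have a1 : u4 ^ 2 ≤ u3 ^ 3 := by
    calc u4 ^ 2 ≤ u3 ^ 2 := by gcongr
      _ ≤ u3 ^ 3 := pow_le_pow_right₀ (by linarith) (by norm_num)
  have a2 : 0 ≤ L1 * u2 ^ 3 := by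
    have : 0 ≤ u2 := by linarith
    have : 0 ≤ L1 := by linarith
    positivity
  calc R X = L1 * u2 ^ 3 * u4 ^ 2 / u3 ^ 3 := rfl
    _ = L1 * u2 ^ 3 * (u4 ^ 2 / u3 ^ 3) := by ring
    _ ≤ L1 * u2 ^ 3 * 1 := by
        apply mul_le_mul_of_nonneg_left _ a2
        rw [div_le_one (by positivity)]
        exact a1
    _ ≤ L1 * L1 * 1 := by
        have : 0 ≤ L1 := by linarith
        gcongr
    _ = L1 ^ 2 := by ring

theorem size (c : ℝ) (hc : 0 < c) (D : ℕ) : ∃ X₀ : ℝ, ∀ X : ℝ, X₀ ≤ X → ∀ a m : ℝ, 0 ≤ m → |a| ≤ Real.exp (Real.log X ^ D) →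
    m ≤ c * R X → |a * m ^ 2| ≤ Real.exp (Real.log X ^ (D + 1)) := by
  obtain ⟨X₁, h1⟩ := R_le
  have ht : Filter.Tendsto (fun x : ℝ => x ^ 4 / Real.exp x) Filter.atTop (nhds 0) :=
    Real.tendsto_pow_mul_exp_neg_atTop_nhds_zero 4 |>.congr (fun x => by rw [Real.exp_neg]; rfl)
  have h2 : ∀ᶠ x : ℝ in Filter.atTop, x ^ 4 / Real.exp x < 1 / (c ^ 2 * Real.exp 1) :=
    ht.eventually (gt_mem_nhds (by positivity))
  obtain ⟨X₂, h3⟩ := Filter.eventually_atTop.1 (Real.tendsto_log_atTop.eventually h2)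
  refine ⟨max X₁ X₂, fun X hX a m hm ha hmc => ?_⟩
  obtain ⟨k1, k2⟩ := h1 X ((le_max_left _ _).trans hX)
  have k3 := h3 X ((le_max_right _ _).trans hX)
  set L := Real.log X
  have hm2 : m ^ 2 ≤ c ^ 2 * L ^ 4 := by
    have : m ≤ c * L ^ 2 := hmc.trans (by gcongr)
    calc m ^ 2 ≤ (c * L ^ 2) ^ 2 := by gcongr
      _ = c ^ 2 * L ^ 4 := by ring
  have k4 : c ^ 2 * L ^ 4 ≤ Real.exp (L - 1) := by
    rw [div_lt_div_iff₀ (Real.exp_pos _) (by positivity)] at k3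
    rw [Real.exp_sub, le_div_iff₀ (Real.exp_pos _)]
    linarith
  have k5 : L - 1 ≤ L ^ (D + 1) - L ^ D := by
    have : (1 : ℝ) ≤ L ^ D := one_le_pow₀ k1
    have e : L ^ (D + 1) - L ^ D = L ^ D * (L - 1) := by ring
    rw [e]
    nlinarith
  rw [abs_mul, abs_of_nonneg (by positivity : (0:ℝ) ≤ m ^ 2)]
  calc |a| * m ^ 2 ≤ Real.exp (L ^ D) * Real.exp (L - 1) := by
        apply mul_le_mul ha (hm2.trans k4) (by positivity) (Real.exp_pos _).le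
    _ = Real.exp (L ^ D + (L - 1)) := by rw [Real.exp_add]
    _ ≤ Real.exp (L ^ (D + 1)) := by
        apply Real.exp_le_exp.2
        linarith

theorem general (D Q : ℕ) (hQ : 0 < Q) : ∃ c : ℝ, 0 < c ∧ ∃ X₀ : ℝ, ∀ X : ℝ, X₀ ≤ X →
    ∀ f : ℕ → ℤ, EvenFun f →
      (∀ m : ℕ, 1 ≤ m → (m : ℝ) ≤ c * R X → |(f m : ℝ)| ≤ Real.exp ((Real.log X) ^ D)) →
      ∀ r z : ℤ, ∃ n : ℤ, (z : ℝ) + X / 4 < n ∧ (n : ℝ) ≤ z + X ∧
        (∀ q : ℕ, q.Prime → q ∣ Q → (q : ℤ) ∣ n - r) ∧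
        ∀ m : ℕ, 1 ≤ m → (m : ℝ) ≤ c * R X → ¬ (n + f m).natAbs.Prime := by
  obtain ⟨c, hc, X₀, h⟩ := scale_even D Q hQ
  refine ⟨c, hc, X₀, fun X hX f hf hb r z => ?_⟩
  have e : FF 2 X = R X := by
    unfold FF R
    norm_num
  obtain ⟨n, h1, h2, h3, h4⟩ := h X hX f hf (by rw [e]; exact hb) r z
  refine ⟨n, h1, h2, h3, fun m hm hm' hp => ?_⟩
  exact h4 m hm (by rw [e]; exact hm') (Int.prime_iff_natAbs_prime.2 hp)

/-- (1) For all `D` and `Q ≥ 1` there is `c > 0` such that for all large `X` and all even functions `f`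
bounded by `exp ((log X)^D)` every interval of length `X` contains an `n` in a prescribed class modulo
every prime factor of `Q` such that `|n + f m|` is not prime for `1 ≤ m ≤ c R(X)`.
(2) In particular, uniformly in the leading coefficients `a ≤ exp ((log X)^D)` composed of prime factors
of `Q`, every interval `(z, z + X]`, `z ≥ 0`, contains an `n` such that `a x² + n` is admissible and takes
no prime value with `1 ≤ x ≤ c R(X)`. -/
theorem result :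
    (∀ D Q : ℕ, 0 < Q → ∃ c : ℝ, 0 < c ∧ ∃ X₀ : ℝ, ∀ X : ℝ, X₀ ≤ X →
      ∀ f : ℕ → ℤ, EvenFun f →
        (∀ m : ℕ, 1 ≤ m → (m : ℝ) ≤ c * R X → |(f m : ℝ)| ≤ Real.exp ((Real.log X) ^ D)) →
        ∀ r z : ℤ, ∃ n : ℤ, (z : ℝ) + X / 4 < n ∧ (n : ℝ) ≤ z + X ∧
          (∀ q : ℕ, q.Prime → q ∣ Q → (q : ℤ) ∣ n - r) ∧
          ∀ m : ℕ, 1 ≤ m → (m : ℝ) ≤ c * R X → ¬ (n + f m).natAbs.Prime) ∧
    ∀ D Q : ℕ, 0 < Q → ∃ c : ℝ, 0 < c ∧ ∃ X₀ : ℝ, ∀ X : ℝ, X₀ ≤ X →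
      ∀ a : ℕ, 1 ≤ a → (∀ p : ℕ, p.Prime → p ∣ a → p ∣ Q) → (a : ℝ) ≤ Real.exp ((Real.log X) ^ D) →
        ∀ z : ℕ, ∃ n : ℕ, z < n ∧ (n : ℝ) ≤ z + X ∧ Admissible a 0 n ∧
          ∀ m : ℕ, 1 ≤ m → (m : ℝ) ≤ c * R X → ¬ (a * m ^ 2 + n).Prime := by
  refine ⟨general, fun D Q hQ => ?_⟩
  obtain ⟨c, hc, X₀, h⟩ := general (D + 1) Q hQ
  obtain ⟨X₁, h1⟩ := size c hc D
  refine ⟨c, hc, max (max X₀ X₁) 1, fun X hX a ha haQ haX z => ?_⟩
  have hX0 : X₀ ≤ X := ((le_max_left _ _).trans (le_max_left _ _)).trans hX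
  have hX1 : X₁ ≤ X := ((le_max_right _ _).trans (le_max_left _ _)).trans hX
  have hX2 : 1 ≤ X := (le_max_right _ _).trans hX
  obtain ⟨n, k1, k2, k3, k4⟩ := h X hX0 (fun m => (a : ℤ) * (m : ℤ) ^ 2) (evenFun_quad a)
    (fun m _ hm' => by
      have := h1 X hX1 (a : ℝ) (m : ℝ) (Nat.cast_nonneg _)
        (by rw [abs_of_nonneg (Nat.cast_nonneg a)]; exact haX) hm'
      push_cast
      exact this) 1 z
  have hz : (0 : ℝ) ≤ z := Nat.cast_nonneg _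
  have hn0 : (z : ℝ) < n := by
    have : ((z : ℤ) : ℝ) = (z : ℝ) := by norm_cast
    rw [this] at k1
    linarith
  have hnz : (z : ℤ) < n := by exact_mod_cast hn0
  have hnpos : 0 < n := by omega
  obtain ⟨N, hN⟩ : ∃ N : ℕ, (N : ℤ) = n := ⟨n.toNat, Int.toNat_of_nonneg hnpos.le⟩
  have hNp : 0 < N := by omega
  have k1' : ∀ q : ℕ, q.Prime → q ∣ a → ¬ q ∣ N := by
    intro q hq hqa hqN
    have h5 := k3 q hq (haQ q hq hqa)
    have h6 : (q : ℤ) ∣ n := by rw [← hN]; exact_mod_cast hqN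
    have h7 : (q : ℤ) ∣ 1 := by
      have := dvd_sub h6 h5
      simpa using this
    have h8 : q ∣ 1 := by exact_mod_cast h7
    exact hq.one_lt.ne' (Nat.dvd_one.1 h8)
  have hcop : Nat.Coprime a N := Nat.Coprime.symm (Nat.coprime_of_dvd (fun q hq hqN hqa => k1' q hq hqa hqN))
  refine ⟨N, by omega, ?_, ⟨by exact_mod_cast ha, ?_, ?_, ?_⟩, ?_⟩
  · have e : (N : ℝ) = n := by rw [← hN]; norm_cast
    rw [e]
    have : ((z : ℤ) : ℝ) = (z : ℝ) := by norm_cast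
    rw [this] at k2
    exact k2
  · intro d hda _ hdn
    have : IsCoprime (a : ℤ) (N : ℤ) := Nat.isCoprime_iff_coprime.2 hcop
    exact this.isUnit_of_dvd' hda hdn
  · rintro ⟨w, hw⟩
    have h9 : 0 ≤ w * w := mul_self_nonneg w
    have ha' : (1 : ℤ) ≤ a := by exact_mod_cast ha
    have hN' : (1 : ℤ) ≤ N := by exact_mod_cast hNp
    nlinarith
  · rintro ⟨h10, h11⟩
    rw [add_zero] at h10
    have h12 : 2 ∣ a := by
      have := even_iff_two_dvd.1 h10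
      exact_mod_cast this
    have h13 : 2 ∣ N := by
      have := even_iff_two_dvd.1 h11
      exact_mod_cast this
    exact k1' 2 Nat.prime_two h12 h13
  · intro m hm hm' hp
    apply k4 m hm hm'
    have e : n + (a : ℤ) * (m : ℤ) ^ 2 = ((a * m ^ 2 + N : ℕ) : ℤ) := by
      push_cast
      rw [hN]
      ring
    show (n + (a : ℤ) * (m : ℤ) ^ 2).natAbs.Prime
    rw [e, Int.natAbs_natCast]
    exact hp

end Pool.Agent.Results.MP_a1177c_nt.LateFirstPrimeAnyLeading
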