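import Pool.Agent.H222R3.TV.Main1

set_option autoImplicit false

/-! # Completely additive functions along `n² + n + C`

For every `C ≥ 1` (discriminant `1 - 4C`, for instance Euler's `n² + n + 41`): a completely additive
function `f` with values in a finite abelian group takes at least three different values on the
numbers `n² + n + C`, each for at least `X / (log X)^41` of the integers `n` in `(X, 2X]`, for
arbitrarily large `X`, as soon as (i) its values at the numbers `s² + (4C-1) t² > 1` prime to `2 s t`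
generate a group with at least three elements, or (ii) `f q = h` for infinitely many primes
`q ≡ 1 (mod 4(4C-1))`, where `4 h ≠ 0`.  In particular `Ω(n² + n + C)` takes every residue class
modulo three that often. -/

namespace Pool.Agent.Results.MP_a1177c_nt.ThreeValuesOddDiscriminant

theorem result (C : ℕ) (hC : 1 ≤ C) :
    (∀ (H : Type) [AddCommGroup H] [Finite H] (f : ℕ → H),
      (∀ m n : ℕ, m ≠ 0 → n ≠ 0 → f (m * n) = f m + f n) →
      (3 ≤ Nat.card (AddSubgroup.closure {x : H | ∃ s t : ℕ,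
          Nat.Coprime (s ^ 2 + (4 * C - 1) * t ^ 2) (2 * s * t) ∧
          1 < s ^ 2 + (4 * C - 1) * t ^ 2 ∧ f (s ^ 2 + (4 * C - 1) * t ^ 2) = x}) ∨
        ∃ h : H, 4 • h ≠ 0 ∧
          {q : ℕ | q.Prime ∧ q % (4 * (4 * C - 1)) = 1 ∧ f q = h}.Infinite) →
      ∃ S : Finset H, S.card = 3 ∧ ∀ h ∈ S, ∀ X0 : ℕ, ∃ X : ℕ, X0 ≤ X ∧
        (X : ℝ) / Real.log X ^ 41 ≤ (Set.ncard {n : ℕ | X < n ∧ n ≤ 2 * X ∧
          f (n ^ 2 + n + C) = h ∧
          ∃ s m : ℕ, n ^ 2 + n + C = s ^ 2 * m ∧ Squarefree m ∧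
            (s : ℝ) ≤ Real.log X ^ 45} : ℝ)) ∧
    (∀ r : ℕ, r < 3 → ∀ X0 : ℕ, ∃ X : ℕ, X0 ≤ X ∧
        (X : ℝ) / Real.log X ^ 41 ≤ (Set.ncard {n : ℕ | X < n ∧ n ≤ 2 * X ∧
          ArithmeticFunction.cardFactors (n ^ 2 + n + C) % 3 = r ∧
          ∃ s m : ℕ, n ^ 2 + n + C = s ^ 2 * m ∧ Squarefree m ∧
            (s : ℝ) ≤ Real.log X ^ 45} : ℝ)) := by
  have ha : 1 ≤ 4 * C - 1 := by omega
  refine ⟨?_, ?_⟩
  · intro H _ _ f hf hyp
    have hcard : 3 ≤ Nat.card (AddSubgroup.closure (Pool.Agent.H222R3.TV.Vals (4 * C - 1) f)) := by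
      rcases hyp with h | ⟨h, h4, hinf⟩
      · exact h
      · exact Pool.Agent.H222R3.TV.card_of_four (4 * C - 1) f h h4
          (Pool.Agent.H222R3.TV.two_smul_mem (4 * C - 1) ha f hf h hinf)
    exact Pool.Agent.H222R3.TV.Odd.three_values C hC f hf hcard
  · intro r hr X0
    obtain ⟨X, hX0, hX⟩ := Pool.Agent.H222R3.TV.Odd.omega_mod_three C hC r X0
    refine ⟨X, hX0, hX.trans (le_of_eq ?_)⟩
    congr 1
    congr 1
    ext n
    simp only [Pool.Agent.H222R3.TV.Odd.GH, Set.mem_ofPred_eq]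
    have hiff : ((ArithmeticFunction.cardFactors (n ^ 2 + n + C) : ℕ) : ZMod 3) =
        (r : ZMod 3) ↔ ArithmeticFunction.cardFactors (n ^ 2 + n + C) % 3 = r := by
      rw [ZMod.natCast_eq_natCast_iff, Nat.ModEq, Nat.mod_eq_of_lt hr]
    rw [hiff]

end Pool.Agent.Results.MP_a1177c_nt.ThreeValuesOddDiscriminant
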